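import Mathlib
import Pool.Agent.H98.Spacing

set_option autoImplicit false

namespace Pool.Agent.Results.MP_a8308c_an.NoPartner

open Set Filter Topology Pool.Agent.H98.Spacing
open scoped Classical

/-- `x` is a transitive point of `T`: its forward orbit is dense. -/
def Tran {X : Type} [TopologicalSpace X] (T : X → X) (x : X) : Prop :=
  DenseRange fun n : ℕ => T^[n] x

def FF (j : ℕ) : Finset ℕ := Denumerable.ofNat (Finset ℕ) (Nat.unpair j).1

def Ok (j : ℕ) (A : Finset ℕ) : Prop :=
  (∀ f ∈ FF j, f < 4 ^ (j + 1)) ∧ ∀ f ∈ FF j, ∀ g ∈ FF j, f < g → g - f ∉ A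

noncomputable def AA : ℕ → Finset ℕ
  | 0 => ∅
  | j + 1 => if Ok j (AA j) then AA j ∪ (FF j).image (fun f => 2 * 4 ^ (j + 1) + f) else AA j

lemma AA_lt (j : ℕ) : ∀ a ∈ AA j, 4 * a < 3 * 4 ^ (j + 1) := by
  induction j with
  | zero => simp [AA]
  | succ j ih =>
    intro a ha
    have e : 4 ^ (j + 1 + 1) = 4 * 4 ^ (j + 1) := by ring
    unfold AA at ha
    split_ifs at ha with h
    · rcases Finset.mem_union.1 ha with h1 | h1
      · have := ih a h1; omega
      · obtain ⟨f, hf, rfl⟩ := Finset.mem_image.1 h1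
        have := h.1 f hf; omega
    · have := ih a ha; omega

lemma AA_mono : Monotone AA := monotone_nat_of_le_succ fun j => by
  intro a ha
  unfold AA
  split_ifs
  · exact Finset.mem_union_left _ ha
  · exact ha

lemma AA_new (j k a : ℕ) (ha : a ∈ AA (j + k)) (hlt : a < 2 * 4 ^ (j + 1)) : a ∈ AA j := by
  induction k with
  | zero => exact ha
  | succ k ih =>
    apply ih
    rw [← add_assoc] at ha
    unfold AA at ha
    split_ifs at ha with h
    · rcases Finset.mem_union.1 ha with h1 | h1
      · exact h1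
      · obtain ⟨f, hf, rfl⟩ := Finset.mem_image.1 h1
        have : 4 ^ (j + 1) ≤ 4 ^ (j + k + 1) := Nat.pow_le_pow_right (by norm_num) (by omega)
        omega
    · exact ha

lemma AA_free (j : ℕ) : ∀ a ∈ AA j, ∀ b ∈ AA j, a < b → b - a ∉ AA j := by
  induction j with
  | zero => simp [AA]
  | succ j ih =>
    intro a ha b hb hab hc
    unfold AA at ha hb hc
    split_ifs at ha hb hc with h
    · have hl := AA_lt j
      simp only [Finset.mem_union, Finset.mem_image] at ha hb hc
      rcases ha with ha | ⟨f, hf, rfl⟩ <;> rcases hb with hb | ⟨g, hg, rfl⟩ <;>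
        rcases hc with hc | ⟨k, hk, hc⟩
      · exact ih a ha b hb hab hc
      · have := hl b hb; omega
      · have := hl a ha; have := hl _ hc; omega
      · have h1 := hl a ha
        rcases Nat.eq_zero_or_pos a with rfl | h0
        · clear hc hab ih h hl h1
          have : ∀ j, 0 ∉ AA j := by
            intro j
            induction j with
            | zero => simp [AA]
            | succ j ih =>
              unfold AA
              split_ifs
              · simp [ih]
              · exact ih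
          exact this j ha
        · have := h.2 k hk g hg (by omega)
          have e : g - k = a := by omega
          rw [e] at this
          exact this ha
      · have := hl b hb; omega
      · have := hl b hb; omega
      · have := h.2 f hf g hg (by omega)
        have e : 2 * 4 ^ (j + 1) + g - (2 * 4 ^ (j + 1) + f) = g - f := by omega
        rw [e] at hc
        exact this hc
      · have := h.1 g hg; omega
    · exact ih a ha b hb hab hc

def A0 : Set ℕ := {a | ∃ j, a ∈ AA j}

def P0 : Set ℕ := A0ᶜ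

lemma mem_A0 {a : ℕ} (j : ℕ) (ha : a ∈ A0) (hlt : a < 2 * 4 ^ (j + 1)) : a ∈ AA j := by
  obtain ⟨k, hk⟩ := ha
  exact AA_new j k a (AA_mono (by omega : k ≤ j + k) hk) hlt

lemma thick : Thick P0 := by
  intro L
  refine ⟨4 ^ (L + 1), fun i hi hA => ?_⟩
  have h1 : L < 4 ^ (L + 1) := lt_trans (by omega) (Nat.lt_pow_self (by norm_num))
  have := AA_lt L _ (mem_A0 L hA (by omega))
  omega

noncomputable def x0 : SP P0 := ⟨fun i => decide (i ∈ A0), fun i j hij hi hj => by
  simp only [decide_eq_true_eq] at hi hj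
  rintro ⟨k3, h3⟩
  obtain ⟨k1, h1⟩ := hi
  obtain ⟨k2, h2⟩ := hj
  exact AA_free (k1 + k2 + k3) i (AA_mono (by omega : k1 ≤ k1 + k2 + k3) h1) j
    (AA_mono (by omega : k2 ≤ k1 + k2 + k3) h2) hij (AA_mono (by omega : k3 ≤ k1 + k2 + k3) h3)⟩

lemma x0_tran : DenseRange fun n : ℕ => sh^[n] x0 := by
  intro z
  rw [mem_closure_iff_nhds]
  intro U hU
  obtain ⟨m, hm⟩ := cyl hU
  let F : Finset ℕ := (Finset.range m).filter fun i => z.1 i = true
  obtain ⟨c, hc⟩ : ∃ c, Denumerable.ofNat (Finset ℕ) c = F :=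
    ⟨_, Denumerable.ofNat_encode F⟩
  let j := Nat.pair c m
  have hF : FF j = F := by simp [FF, j, hc]
  have hjm : m ≤ j := Nat.right_le_pair _ _
  have h1 : j < 4 ^ (j + 1) := lt_trans (by omega) (Nat.lt_pow_self (by norm_num))
  have hok : Ok j (AA j) := by
    rw [Ok, hF]
    refine ⟨fun f hf => ?_, fun f hf g hg hfg hA => ?_⟩
    · have := Finset.mem_range.1 (Finset.mem_filter.1 hf).1; omega
    · exact z.2 f g hfg (Finset.mem_filter.1 hf).2 (Finset.mem_filter.1 hg).2 ⟨j, hA⟩
  have hA : AA (j + 1) = AA j ∪ F.image (fun f => 2 * 4 ^ (j + 1) + f) := by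
    rw [AA, if_pos hok, hF]
  refine ⟨sh^[2 * 4 ^ (j + 1)] x0, hm _ fun i hi => ?_, _, rfl⟩
  rw [sh_iter]
  change decide (i + 2 * 4 ^ (j + 1) ∈ A0) = _
  by_cases hz : z.1 i = true
  · rw [hz, decide_eq_true_eq]
    refine ⟨j + 1, ?_⟩
    rw [hA]
    exact Finset.mem_union_right _ (Finset.mem_image.2 ⟨i, by simp [F, hi, hz], by ring⟩)
  · rw [Bool.not_eq_true] at hz
    rw [hz, decide_eq_false_iff_not]
    intro h
    have e : 4 ^ (j + 1 + 1) = 4 * 4 ^ (j + 1) := by ring
    have h2 := mem_A0 (j + 1) h (by omega)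
    rw [hA] at h2
    rcases Finset.mem_union.1 h2 with h3 | h3
    · have := AA_lt j _ h3; omega
    · obtain ⟨f, hf, h4⟩ := Finset.mem_image.1 h3
      have : f = i := by omega
      rw [this] at hf
      have := (Finset.mem_filter.1 hf).2
      rw [hz] at this
      cases this

theorem result : ∃ (X : Type) (_ : MetricSpace X) (_ : CompactSpace X) (T : X → X),
    Continuous T ∧ Function.Surjective T ∧ (∃ p : X × X, Tran (Prod.map T T) p) ∧
    ∃ x, Tran T x ∧ ∀ y, ¬ Tran (Prod.map T T) (x, y) := by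
  refine ⟨SP P0, TopologicalSpace.metrizableSpaceMetric _, (inferInstance : CompactSpace (SP P0)),
    sh, sh_cont, sh_surj, ?_, x0, x0_tran, fun y hy => ?_⟩
  · refine exists_dense_orbit (Y := SP P0 × SP P0) (sh_cont.prodMap sh_cont) fun U V hU hV n1 n2 => ?_
    obtain ⟨n, -, z, hz1, hz2⟩ := wm thick U V hU hV n1 n2
    exact ⟨n, z, hz1, by rw [Prod.map_iterate]; exact hz2⟩
  · have hy' : DenseRange fun n : ℕ => (Prod.map sh sh)^[n] (x0, y) := hy
    obtain ⟨k, hk⟩ := hy'.exists_mem_open ((coord_open 0 true).preimage continuous_snd)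
      ⟨(zero _, one _ 0), one_self 0⟩
    obtain ⟨n, hn1, hn2⟩ := hy'.exists_mem_open ((coord_open 0 true).prod (coord_open k true))
      ⟨(one _ 0, one _ k), one_self 0, one_self k⟩
    rw [Prod.map_iterate] at hk hn1 hn2
    have a1 : (sh^[k] y).1 0 = true := hk
    have a2 : (sh^[n] x0).1 0 = true := hn1
    have a3 : (sh^[n] y).1 k = true := hn2
    rw [sh_iter, zero_add] at a1 a2
    rw [sh_iter] at a3
    have a4 : n ∈ A0 := by simpa [x0] using a2
    have a5 : n ≠ 0 := by
      rintro rfl
      have := AA_lt 0 0 (mem_A0 0 a4 (by norm_num))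
      exact absurd (mem_A0 0 a4 (by norm_num)) (by simp [AA])
    have := y.2 k (k + n) (by omega) a1 a3
    rw [Nat.add_sub_cancel_left] at this
    exact this a4

end Pool.Agent.Results.MP_a8308c_an.NoPartner
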